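import Mathlib
import Pool.Agent.H19.Trunc

set_option autoImplicit false
set_option maxRecDepth 100000

namespace Pool.Agent.Results.MP_86f038_nt.Counter
open PowerSeries Pool.Agent.H19.Trunc

/-- `q`-expansion of `E_4` -/
noncomputable def E4 : ℂ⟦X⟧ :=
  PowerSeries.mk fun n => if n = 0 then 1 else 240 * ∑ d ∈ n.divisors, (d : ℂ) ^ 3

/-- `q`-expansion of `E_6` -/
noncomputable def E6 : ℂ⟦X⟧ :=
  PowerSeries.mk fun n => if n = 0 then 1 else -504 * ∑ d ∈ n.divisors, (d : ℂ) ^ 5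

/-- `q`-expansion of the discriminant -/
noncomputable def Delta : ℂ⟦X⟧ := C (1 / 1728 : ℂ) * (E4 ^ 3 - E6 ^ 2)

/-- `F` is the Faber polynomial `F_{12 l, m}`: monic of degree `l - m`, and
`Delta ^ l * F (j) = q ^ m + O (q ^ (l + 1))` with `j = E4 ^ 3 / Delta` -/
def IsFaber (l m : ℕ) (F : Polynomial ℂ) : Prop :=
  F.Monic ∧ F.natDegree = l - m ∧ ∀ n ≤ l,
    coeff n (∑ i ∈ Finset.range (l - m + 1), C (F.coeff i) * Delta ^ (l - i) * (E4 ^ 3) ^ i) =
      if n = m then 1 else 0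

/-- `f_{12 l, m}` has a zero not on the arc -/
def Off (l m : ℕ) : Prop :=
  ∃ F, IsFaber l m F ∧ ∃ z : ℂ, F.eval z = 0 ∧ ¬ ∃ x : ℝ, 0 ≤ x ∧ x ≤ 1728 ∧ z = x

/-- `m (12 l)` -/
noncomputable def mm (l : ℕ) : ℕ := sInf {m | m ≤ l ∧ Off l m}

def mr (r : ℕ) : ℕ := [4, 3, 4, 5, 6, 7, 6, 7, 8, 9, 10, 9, 10, 11, 12, 13].getD r 0

def sg (c : ℤ) (k : ℕ) : List ℤ :=
  (List.range 114).map fun n : ℕ => if n = 0 then 1 else c * ((∑ d ∈ n.divisors, d ^ k : ℕ) : ℤ)

lemma sg_cg (c : ℤ) (k : ℕ) : Cg 114 (ev (sg c k) : ℂ⟦X⟧)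
    (PowerSeries.mk fun n => if n = 0 then 1 else (c : ℂ) * ∑ d ∈ n.divisors, (d : ℂ) ^ k) := by
  unfold Cg
  rw [X_pow_dvd_iff]
  intro m hm
  rw [map_sub, coeff_ev, coeff_mk, sg, List.getD_eq_getElem _ _ (by simpa using hm)]
  simp only [List.getElem_map, List.getElem_range]
  split_ifs <;> simp

def c3 (A B d J W Y l : List ℤ) : Bool :=
  axpy 1728 (0 :: d) B == A && mulT 113 J d == A.take 113 &&
    mulT 113 W Y == 1 :: List.replicate 112 0 && l.headD 0 == 1 &&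
      decide (evI 0 l < 0) && decide (0 < evI (-1) l)

def chk : Bool :=
  forceL (sg 240 3) fun e4 => forceL (sg (-504) 5) fun e6 =>
  forceL (pw 114 e4 2 3) fun A => forceL (mulT 114 e6 e6) fun B =>
  forceL ((axpy (-1) B A).tail.map (· / 1728)) fun d =>
  forceL (invT 112 d) fun di => forceL (mulT 113 A di) fun J =>
  forceL (pw 113 d 8 191) fun P => forceL (pw 113 A 7 112) fun Q =>
  forceL (mulT 113 P Q) fun Y => forceL (invT 112 Y) fun W =>
  forceL (peel J 113 W) fun l => c3 A B d J W Y l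

lemma chk_true : chk = true := by decide +kernel

lemma ex : ∃ A B d J W Y l : List ℤ, A = pw 114 (sg 240 3) 2 3 ∧
    B = mulT 114 (sg (-504) 5) (sg (-504) 5) ∧ Y = mulT 113 (pw 113 d 8 191) (pw 113 A 7 112) ∧
    l = peel J 113 W ∧ c3 A B d J W Y l = true := by
  have h := chk_true
  simp only [chk, forceL_eq] at h
  exact ⟨_, _, _, _, _, _, _, rfl, rfl, rfl, rfl, h⟩

lemma ev_take (n : ℕ) (a : List ℤ) : Cg n (ev (a.take n) : ℂ⟦X⟧) (ev a) := by
  unfold Cg
  rw [X_pow_dvd_iff]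
  intro m hm
  rw [map_sub, coeff_ev, coeff_ev]
  simp [List.getD_eq_getElem?_getD, List.getElem?_take, hm]

lemma ev_rep (n : ℕ) : (ev (List.replicate n 0) : ℂ⟦X⟧) = 0 := by
  induction n with
  | zero => rfl
  | succ n ih => simp [List.replicate_succ, ev, ih]

lemma off : Off 303 191 := by
  obtain ⟨A, B, d, J, W, Y, l, hA, hB, hY, hl, h⟩ := ex
  simp only [c3, Bool.and_eq_true, beq_iff_eq, decide_eq_true_eq] at h
  obtain ⟨⟨⟨⟨⟨h1, h2⟩, h3⟩, h4⟩, h5⟩, h6⟩ := h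
  have cA : Cg 114 (ev A) (E4 ^ 3) := by
    rw [hA]
    have := sg_cg 240 3
    exact Cg.pw (by simpa [E4] using this) 2 3 (by norm_num)
  have cB : Cg 114 (ev B) (E6 * E6) := by
    rw [hB]
    have h : Cg 114 (ev (sg (-504) 5)) E6 := by simpa [E6] using sg_cg (-504) 5
    exact h.mulT h
  have lB : B.length = 114 := by rw [hB, mulT_len]
  have cD : Cg 114 (X * ev d) Delta := by
    obtain ⟨u, hu⟩ := cA
    obtain ⟨v, hv⟩ := cB
    obtain ⟨w, hw⟩ := axpy_dvd (R := ℂ) 1728 (0 :: d) B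
    rw [h1, lB] at hw
    simp only [ev, Int.cast_zero, map_zero, zero_add] at hw
    have e : (C (1 / 1728 : ℂ) : ℂ⟦X⟧) * C ((1728 : ℤ) : ℂ) = 1 := by
      rw [← map_mul]; norm_num
    refine ⟨C (1 / 1728 : ℂ) * (u - v - w), ?_⟩
    unfold Delta
    linear_combination C (1 / 1728 : ℂ) * (hu - hv - hw) - (X * ev d) * e
  obtain ⟨D, hD, cd⟩ : ∃ D : ℂ⟦X⟧, Delta = X * D ∧ Cg 113 (ev d) D := by
    obtain ⟨u, hu⟩ := cD
    exact ⟨ev d - X ^ 113 * u, by linear_combination -hu, u, by ring⟩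
  have cA' := cA.mono (show 113 ≤ 114 by norm_num)
  have cJ : Cg 113 (ev J * D) (E4 ^ 3) := by
    have h := (Cg.rfl (f := (ev J : ℂ⟦X⟧))).mulT cd
    rw [h2] at h
    exact h.symm.trans ((ev_take 113 A).trans cA')
  have cY : Cg 113 (ev Y) (D ^ 191 * (E4 ^ 3) ^ 112) := by
    rw [hY]
    exact (cd.pw 8 191 (by norm_num)).mulT (cA'.pw 7 112 (by norm_num))
  have cW : Cg 113 1 (ev W * (D ^ 191 * (E4 ^ 3) ^ 112)) := by
    have h := (Cg.rfl (f := (ev W : ℂ⟦X⟧))).mulT cY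
    rw [h3] at h
    simpa [ev, ev_rep] using h
  have cP := peel_cg (E4 ^ 3) D J 113 cJ W
  rw [← hl, ← hD] at cP
  have ll : l.length = 113 := by rw [hl, peel_len]
  have hu : IsUnit (E4 ^ 3) := by
    refine IsUnit.pow 3 ?_
    rw [isUnit_iff_constantCoeff]
    simp [E4]
  have cH : Cg 113 (D ^ 191 * hom (E4 ^ 3) Delta l) 1 := by
    obtain ⟨u, h7⟩ := cP
    obtain ⟨v, h8⟩ := cW
    refine (hu.dvd_mul_left).1 ⟨D ^ 191 * u - E4 ^ 3 * v, ?_⟩
    linear_combination D ^ 191 * h7 - E4 ^ 3 * h8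
  obtain ⟨c, t, rfl⟩ : ∃ c t, l = c :: t := by
    cases l with
    | nil => simp at ll
    | cons c t => exact ⟨c, t, rfl⟩
  obtain rfl : c = 1 := h4
  have lt : t.length = 112 := by simpa using ll
  have hdeg : (pol t : Polynomial ℂ).degree < (112 : ℕ) :=
    (Polynomial.degree_lt_iff_coeff_zero _ _).2 fun m hm => pol_coeff t m (by omega)
  have hpol : (pol (1 :: t) : Polynomial ℂ) = Polynomial.X ^ 112 + pol t := by simp [pol, lt]
  refine ⟨pol (1 :: t), ⟨?_, ?_, ?_⟩, ?_⟩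
  · rw [hpol]; exact Polynomial.monic_X_pow_add hdeg
  · rw [hpol, Polynomial.natDegree_add_eq_left_of_degree_lt (by simpa using hdeg)]; simp
  · intro n hn
    have e1 : ∑ i ∈ Finset.range (303 - 191 + 1), C ((pol (1 :: t) : Polynomial ℂ).coeff i) *
        Delta ^ (303 - i) * (E4 ^ 3) ^ i = Delta ^ 191 * hom (E4 ^ 3) Delta (1 :: t) := by
      rw [hom_eq, ll, Finset.mul_sum]
      refine Finset.sum_congr rfl fun i hi => ?_
      have hi := Finset.mem_range.1 hi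
      rw [show 303 - i = 191 + (113 - 1 - i) by omega, pow_add]
      ring
    obtain ⟨u, h7⟩ := cH
    have e2 : Delta ^ 191 * hom (E4 ^ 3) Delta (1 :: t) = X ^ 191 + X ^ 304 * u := by
      generalize hom (E4 ^ 3) Delta (1 :: t) = H at h7
      rw [hD]
      linear_combination X ^ 191 * h7
    rw [e1, e2, map_add, coeff_X_pow, coeff_X_pow_mul', if_neg (show ¬ 304 ≤ n by omega), add_zero]
  · have a0 : (pol (1 :: t) : Polynomial ℝ).eval 0 < 0 := by
      have := pol_eval (R := ℝ) (1 :: t) 0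
      rw [Int.cast_zero] at this
      rw [this]; exact_mod_cast h5
    have a1 : 0 < (pol (1 :: t) : Polynomial ℝ).eval (-1) := by
      have := pol_eval (R := ℝ) (1 :: t) (-1)
      rw [Int.cast_neg, Int.cast_one] at this
      rw [this]; exact_mod_cast h6
    obtain ⟨x, hx, h0⟩ := intermediate_value_Icc' (show (-1 : ℝ) ≤ 0 by norm_num)
      (pol (1 :: t) : Polynomial ℝ).continuous.continuousOn ⟨a0.le, a1.le⟩
    refine ⟨x, ?_, ?_⟩
    · rw [← pol_map Complex.ofRealHom (1 :: t)]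
      have := Polynomial.eval_map_apply (p := (pol (1 :: t) : Polynomial ℝ)) Complex.ofRealHom x
      simp only [Complex.ofRealHom_eq_coe] at this
      rw [this]
      simp only at h0
      rw [h0]; simp
    · rintro ⟨y, y0, -, hy⟩
      obtain rfl : x = y := by exact_mod_cast hy
      obtain rfl : x = 0 := le_antisymm hx.2 y0
      exact a0.ne h0

theorem result : ¬ ∀ l : ℕ, 30 < l → mm l = 10 * (l / 16) + mr (l % 16) ∧
    ∀ m, mm l ≤ m → m ≤ l - 1 → Off l m := by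
  intro h
  have h1 := (h 303 (by norm_num)).1
  have h2 : mm 303 ≤ 191 := Nat.sInf_le ⟨by norm_num, off⟩
  have h3 : mr (303 % 16) = 13 := rfl
  omega

end Pool.Agent.Results.MP_86f038_nt.Counter
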